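import Pool.Agent.J4.H62.RL.Cl
import Pool.Agent.J4.H62.LD.Main

set_option autoImplicit false

/-! Runs of consecutive isolated simple zeros with the law of the derivative, in dyadic blocks. -/

namespace Pool.Agent.J4.H62.RL

open Filter Topology MeasureTheory Complex H370 TH803UC TH803CL Pool.Agent.Y745.SW Pool.Agent.TH299.Runs
open Pool.Agent.J4.H62.LD

noncomputable section

open Classical in
/-- the ordinates of the isolated simple zeros at which the normalised size of the derivative is in `(a, b)` -/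
def gords (a b δ T U1 U2 : ℝ) : Finset ℝ := ((isoS U1 U2 (δ / Real.log T)).filter (fun s =>
  T + 2 ≤ s.im ∧ s.im ≤ 2 * T - 2 ∧ a < nrm T (Real.log ‖deriv riemannZeta s‖) ∧
    nrm T (Real.log ‖deriv riemannZeta s‖) < b)).image (fun s => s.im)

/-- the final computation -/
lemma calc_fin {g c m K P ε near WE IE X n : ℝ} (hm : 0 ≤ m) (hK : K = m + 1) (hε : 0 < ε) (hP : 0 ≤ P)
    (h1 : ((2 - c) * g - ε / (16 * K)) * P ≤ near) (h2 : WE ≤ (g + ε / (16 * K)) * P)
    (h3 : near ≤ IE) (h4 : near - m / 2 * (WE - IE) - ε / 64 * P - ε / 16 * P - K * X ≤ n)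
    (h5 : X ≤ ε / (16 * K) * P) :
    (((2 - c) - m * (c - 1) / 2) * g - ε) * P ≤ n := by
  have hK0 : 0 < K := by linarith
  set e := ε / (16 * K) with he
  have heK : e * K = ε / 16 := by rw [he]; field_simp
  have h6 : K * X ≤ ε / 16 * P := by
    calc K * X ≤ K * (e * P) := mul_le_mul_of_nonneg_left h5 hK0.le
      _ = (e * K) * P := by ring
      _ = _ := by rw [heK]
  have h7 : m / 2 * WE ≤ m / 2 * ((g + e) * P) := mul_le_mul_of_nonneg_left h2 (by positivity)
  have h8 : m / 2 * near ≤ m / 2 * IE := mul_le_mul_of_nonneg_left h3 (by positivity)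
  have h9 : (1 + m / 2) * (((2 - c) * g - e) * P) ≤ (1 + m / 2) * near :=
    mul_le_mul_of_nonneg_left h1 (by positivity)
  have h10 : (1 + m) * e * P = ε / 16 * P := by rw [← heK, hK]; ring
  have h11 : 0 ≤ ε * P := by positivity
  nlinarith

open Classical in
/-- **runs with the law of the derivative** -/
theorem block_runs (hζ : GoodL riemannZeta) (hBLK : P_BLK) (hBLKx : P_BLKx) (hIND : P_IND) (hBV : P_BV)
    (hDER : P_DER) {a b ε : ℝ} (hab : a < b) (hε : 0 < ε) (m : ℕ) :
    ∃ δ A : ℝ, 0 < δ ∧ δ ≤ 1 / 10 ∧ 0 < A ∧ ∀ᶠ T : ℝ in atTop,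
    ∃ U1 U2 : ℝ, T ≤ U1 ∧ U1 ≤ T + 1 ∧ 2 * T - 1 ≤ U2 ∧ U2 ≤ 2 * T ∧
    (((2 - cMTinv) - m * (cMTinv - 1) / 2) * Gm01 a b - ε) * (T * (Real.log T / (2 * Real.pi))) ≤
      ({t : ℝ | T + 2 ≤ t ∧ Starts (ords U1 U2 : Set ℝ) (gords a b δ T U1 U2 : Set ℝ) m
        (A / Real.log T) t}.ncard : ℝ) := by
  have hpi := Real.pi_pos
  set K : ℝ := (m : ℝ) + 1 with hK
  have hm0 : (0:ℝ) ≤ m := Nat.cast_nonneg m
  have hK1 : 1 ≤ K := by linarith
  have hK0 : 0 < K := by linarith
  obtain ⟨θ, hθ, hab', hG⟩ := Gm01_shrink hab (show 0 < ε / (64 * K) by positivity)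
  obtain ⟨δ, h, εs, τ, B, hδ, hδ1, hh, hεs, hεs2, hτ, hτε, hB, hblk⟩ := hBLK (min (ε / (64 * K)) 1) (by positivity)
    (min_le_right _ _)
  obtain ⟨r, Y0, M1, εs', τ', B', hrH, hY0, hM1, hεs', hεs2', hτ', hτε', hB', hblk'⟩ :=
    hBLKx (min (ε / (64 * K)) 1) 1 (by positivity) (min_le_right _ _) one_pos
  set A : ℝ := 32 * Real.pi * K / ε with hA
  have hA0 : 0 < A := by positivity
  refine ⟨δ, A, hδ, hδ1, hA0, ?_⟩
  obtain ⟨c, hc, C0, T0, hC0, hT0, hef⟩ := explicit_formula hζ
  obtain ⟨⟨K0, hKK0⟩, hblk⟩ := hblk c C0 hc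
  obtain ⟨-, hblk'⟩ := hblk' c C0 hc
  set K2 : ℝ := |K0| + 1 with hK2
  have hK20 : 0 < K2 := by positivity
  set δ' : ℝ := min (ε / (64 * K)) (1 / (4 * K2)) with hδ'
  have hδ'0 : 0 < δ' := by positivity
  have hδ'1 : δ' ≤ ε / (64 * K) := min_le_left _ _
  have hδ'2 : δ' * K2 ≤ 1 / 4 := by
    have : δ' ≤ 1 / (4 * K2) := min_le_right _ _
    calc δ' * K2 ≤ 1 / (4 * K2) * K2 := mul_le_mul_of_nonneg_right this hK20.le
      _ = 1 / 4 := by field_simp
  have hδ'3 : δ' ≤ 1 / 4 := by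
    have : 1 ≤ K2 := by rw [hK2]; linarith [abs_nonneg K0]
    nlinarith
  have h4τ : 4 * τ ≤ 1 := by linarith
  have hr0 : 0 < r := by linarith
  have hind := hIND Rf Rf_cont (fun x _ => Rf_nonneg x) B hB c hc εs τ (4 * τ) hεs hεs2 hτ hτε le_rfl h4τ
    ⟨K0, hKK0⟩ (a + θ) (b - θ) δ' hab' hδ'0
  have hind2 := hIND Rf Rf_cont (fun x _ => Rf_nonneg x) B hB c hc εs τ (4 * τ) hεs hεs2 hτ hτε le_rfl h4τ
    ⟨K0, hKK0⟩ a b δ' hab hδ'0
  set ε3 : ℝ := min (ε / (32 * Real.pi * K)) (θ / 4) with hε3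
  have hε30 : 0 < ε3 := by positivity
  set h1 : ℝ := h + A + δ + r with hh1
  have hbv := hBV h1 δ' (by positivity) hδ'0
  have hder := hDER δ ε3 hδ hδ1 hε30
  obtain ⟨C1, T1, hC1, hT1, hnn⟩ := nn_asymp good_zeta
  have hσ : ∀ᶠ T : ℝ in atTop, 8 / θ ≤ Real.sqrt (Real.log (Real.log T)) :=
    (Real.tendsto_sqrt_atTop.comp loglog_tendsto).eventually_ge_atTop _
  filter_upwards [hblk, hKK0, hind, hind2, hbv, hder, hσ,
    Real.tendsto_log_atTop.eventually_ge_atTop (h1 + 10),
    Real.tendsto_log_atTop.eventually_ge_atTop (2 * Real.pi * C1 * (64 * K / ε)),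
    eventually_ge_atTop T0, eventually_ge_atTop T1, eventually_ge_atTop 10, small_log (ε / (128 * K)) (by positivity),
    eventually_ge_atTop (m * (64 / ε)), hblk', small_log (1 / 4) (by norm_num)] with
    T tblk tK0 tind tind2 tbv tder tσ tL tL2 tT0 tT1 tT2 tsl tm tblk' tsl2
  obtain ⟨U1, U2, hU1, hU1', hU2, hU2', heft⟩ := hef T tT0
  refine ⟨U1, U2, hU1, hU1', hU2, hU2', ?_⟩
  have hefd : EFD c C0 T U1 U2 := ⟨hc, hU1, hU1', hU2, hU2', heft⟩
  obtain ⟨tm', tI1, tI2⟩ := tind
  obtain ⟨tm2, tJ1, -⟩ := tind2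
  obtain ⟨Bd, hBdm, hBd1, hBd2, hBd3⟩ := tbv
  set L := Real.log T with hL
  set σ := Real.sqrt (Real.log L) with hσd
  have hL0 : 0 < L := by
    have : 0 < h1 := by positivity
    linarith
  have hT0 : 0 < T := by linarith
  have hU1one : 1 ≤ U1 := by linarith
  have hσ0 : 0 < σ := lt_of_lt_of_le (by positivity) tσ
  set G' : ℝ := (ProbabilityTheory.gaussianReal 0 1).real (Set.Ioo (a + θ) (b - θ)) with hG'
  have hG'0 : 0 ≤ G' := measureReal_nonneg
  have hG'1 : Gm01 a b - ε / (64 * K) ≤ G' := hG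
  set SS := SB (a + θ) (b - θ) T with hSS
  have hSSI : SS ⊆ Set.Icc (T + L) (2 * T - L) := fun t ht => ht.1
  have hSSf : volume SS ≠ ⊤ := ne_top_of_le_ne_top (by simp) (measure_mono hSSI)
  set S := SS \ Bd with hS
  have hSm : MeasurableSet S := tm'.diff hBdm
  have hSI : S ⊆ Set.Icc (T + L) (2 * T - L) := fun t ht => hSSI ht.1
  -- the measure of `S`
  have hvol : volume.real SS ≤ volume.real S + volume.real Bd := by
    have h1 : SS ⊆ S ∪ Bd := fun t ht => by
      by_cases h : t ∈ Bd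
      · exact Or.inr h
      · exact Or.inl ⟨ht, h⟩
    have hSf : volume S ≠ ⊤ := ne_top_of_le_ne_top (by simp) (measure_mono hSI)
    have hBf : volume Bd ≠ ⊤ := ne_top_of_le_ne_top (by simp) (measure_mono hBd1)
    refine (measureReal_mono h1 ?_).trans (measureReal_union_le _ _)
    exact (measure_union_lt_top (lt_top_iff_ne_top.2 hSf) (lt_top_iff_ne_top.2 hBf)).ne
  have hSlow : T * G' - 2 * δ' * T ≤ volume.real S := by
    have := (abs_le.1 tI1).1
    linarith
  -- the weight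
  have hZ0 : 0 ≤ Zq Rf c B εs τ (4 * τ) T := by
    unfold Zq
    refine mul_nonneg (by norm_num) (intervalIntegral.integral_nonneg h4τ fun y hy => ?_)
    exact mul_nonneg (Rf_nonneg y) (Finset.sum_nonneg fun n _ => by positivity)
  have hZK : Zq Rf c B εs τ (4 * τ) T ≤ K2 := by
    have := le_abs_self K0
    rw [hK2]; linarith
  have hDqc : Continuous (fun t : ℝ => Dq Rf c B εs τ (4 * τ) T t) :=
    Dq_cont hB hεs hεs2 hτ hτε le_rfl h4τ Rf_cont hL0
  have hDq0 : ∀ t, 0 ≤ Dq Rf c B εs τ (4 * τ) T t := fun t =>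
    Dq_nonneg hεs hεs2 hτ hτε le_rfl h4τ (fun x _ => Rf_nonneg x) t
  have hDqS : (∫ t in S, Dq Rf c B εs τ (4 * τ) T t) ≤ volume.real S * Zq Rf c B εs τ (4 * τ) T + T := by
    have h1 : (∫ t in S, Dq Rf c B εs τ (4 * τ) T t) ≤ ∫ t in SS, Dq Rf c B εs τ (4 * τ) T t :=
      setIntegral_mono_set ((hDqc.continuousOn.integrableOn_compact isCompact_Icc).mono_set hSSI)
        (Filter.Eventually.of_forall hDq0) (Filter.Eventually.of_forall fun t ht => ht.1)
    have h2 := (abs_le.1 tI2).2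
    have h3 : T * G' * Zq Rf c B εs τ (4 * τ) T ≤ (volume.real S + 2 * δ' * T) * Zq Rf c B εs τ (4 * τ) T :=
      mul_le_mul_of_nonneg_right (by linarith) hZ0
    have h4 : 2 * δ' * T * Zq Rf c B εs τ (4 * τ) T ≤ 2 * T * (1 / 4) := by
      have h5 : δ' * Zq Rf c B εs τ (4 * τ) T ≤ 1 / 4 :=
        (mul_le_mul_of_nonneg_left hZK hδ'0.le).trans hδ'2
      nlinarith
    nlinarith
  have hmain := tblk U1 U2 hefd S hSm hSI hDqS
  have hbad := tder U1 U2 hU1 hU1' hU2 hU2'
  -- the complement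
  set S' := Set.Icc (T + L) (2 * T - L) \ SB a b T with hS'
  have hS'm : MeasurableSet S' := measurableSet_Icc.diff tm2
  have hS'I : S' ⊆ Set.Icc (T + L) (2 * T - L) := fun t ht => ht.1
  have hcomp := ((tblk' U1 U2 hefd).2 S' hS'm hS'I).2
  have hLT : L ≤ ε / (128 * K) * T := tsl
  have hS'v : T - 2 * L - T * Gm01 a b - δ' * T ≤ volume.real S' := by
    have h1 : volume.real (Set.Icc (T + L) (2 * T - L)) ≤ volume.real S' + volume.real (SB a b T) := by
      have h2 : Set.Icc (T + L) (2 * T - L) ⊆ S' ∪ SB a b T := fun t ht => by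
        by_cases h : t ∈ SB a b T
        · exact Or.inr h
        · exact Or.inl ⟨ht, h⟩
      have hf1 : volume S' ≠ ⊤ := ne_top_of_le_ne_top (by simp) (measure_mono hS'I)
      have hf2 : volume (SB a b T) ≠ ⊤ :=
        ne_top_of_le_ne_top (by simp) (measure_mono (fun t (ht : t ∈ SB a b T) => ht.1))
      refine (measureReal_mono h2 ?_).trans (measureReal_union_le _ _)
      exact (measure_union_lt_top (lt_top_iff_ne_top.2 hf1) (lt_top_iff_ne_top.2 hf2)).ne
    have h3 := (abs_le.1 tJ1).2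
    have h4 : T - 2 * L ≤ volume.real (Set.Icc (T + L) (2 * T - L)) := by
      rw [Real.volume_real_Icc_of_le (by linarith)]
      linarith
    have h5 : (ProbabilityTheory.gaussianReal 0 1).real (Set.Ioo a b) = Gm01 a b := rfl
    rw [h5] at h3
    linarith
  -- the sets
  set I := isoS U1 U2 (δ / L) with hI
  set near := I.filter (fun s => ∃ t ∈ S, |s.im - t| ≤ h / L) with hnear
  set bad := I.filter (fun s => T + 2 ≤ s.im ∧ s.im ≤ 2 * T - 2 ∧ ε3 * σ < |Real.log ‖deriv riemannZeta s‖ -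
    Real.log L - (Px T s.im).re|) with hbadd
  set E : ℝ → Prop := fun x => ∃ t ∈ S, |x - t| ≤ (h + A + δ) / L with hE
  set Q : Finset ℝ := (iords U1 U2 (δ / L)).filter (fun x => ∃ t ∈ S, |x - t| ≤ h / L) with hQ
  set X : Finset ℝ := bad.image (fun s => s.im) with hX
  have hord : ∀ s ∈ ords U1 U2, U1 < s ∧ s ≤ U2 := by
    intro x hx
    unfold ords at hx
    rw [Finset.mem_image] at hx
    obtain ⟨s, hs, rfl⟩ := hx
    have hm := (mem_Zf hζ hU1one).mp hs
    exact ⟨hm.2.2.1, hm.2.2.2.1⟩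
  have hcount := count_loc (ords U1 U2) (iords U1 U2 (δ / L)) Q X (iords_sub _ _ _) U1 U2 hord (by linarith) m
    (A / L) (δ / L) (by positivity) (by positivity) E (wt U1 U2) (by
      intro s hs o _ hso hso'
      rw [hQ, Finset.mem_filter] at hs
      obtain ⟨-, t, htS, hst⟩ := hs
      refine ⟨t, htS, ?_⟩
      have e : (h + A + δ) / L = h / L + A / L + δ / L := by ring
      rw [e, abs_le]
      have h2 := abs_le.1 hst
      have h3 : 0 ≤ A / L := by positivity
      have h4 : 0 ≤ δ / L := by positivity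
      constructor <;> linarith [h2.1, h2.2])
    (cluster1 hU1one) (cluster2 hU1one)
  -- the weight of the bad ordinates
  have hwt := wt_sum (d := δ / L) hU1one (U2 := U2) E
  set WE := ∑ s ∈ (Zf riemannZeta U1 U2).filter (fun s => E s.im), (mult riemannZeta s : ℝ) with hWE
  set IE := ((isoS U1 U2 (δ / L)).filter (fun s => E s.im)).card with hIE
  have hnI : near.card ≤ IE := by
    refine Finset.card_le_card ?_
    intro s hs
    rw [hnear, Finset.mem_filter] at hs
    obtain ⟨h2, t, htS, hst⟩ := hs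
    rw [Finset.mem_filter]
    refine ⟨h2, t, htS, hst.trans ?_⟩
    exact div_le_div_of_nonneg_right (by linarith) hL0.le
  -- the zeros near the good places
  have hWEle : WE + ∑ s ∈ (Zf riemannZeta U1 U2).filter (fun s => |(zz s).im| * L < Y0 ∧
      ∃ t ∈ S', |s.im - t| ≤ r / L), (mult riemannZeta s : ℝ) ≤ (NN riemannZeta U1 U2 : ℝ) := by
    have hdisj : Disjoint ((Zf riemannZeta U1 U2).filter (fun s => E s.im))
        ((Zf riemannZeta U1 U2).filter (fun s => |(zz s).im| * L < Y0 ∧ ∃ t ∈ S', |s.im - t| ≤ r / L)) := by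
      rw [Finset.disjoint_left]
      intro s hs hs'
      rw [Finset.mem_filter] at hs hs'
      obtain ⟨-, t, ⟨⟨⟨ht1, ht2⟩, ht3, ht4⟩, htB⟩, hst⟩ := hs
      obtain ⟨-, -, t', ⟨ht'I, ht'S⟩, hst'⟩ := hs'
      apply ht'S
      have h2 := hBd3 t ⟨by linarith, by linarith⟩ htB (t' - t) (by
        calc |t' - t| = |(s.im - t) - (s.im - t')| := by congr 1; ring
          _ ≤ |s.im - t| + |s.im - t'| := abs_sub _ _
          _ ≤ (h + A + δ) / L + r / L := by linarith
          _ = h1 / L := by rw [hh1]; ring)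
      rw [add_sub_cancel] at h2
      have h3 := (Complex.abs_re_le_norm _).trans h2
      rw [Complex.sub_re] at h3
      have h5 : 1 / σ ≤ θ / 8 := by
        rw [div_le_div_iff₀ hσ0 (by norm_num)]
        rw [div_le_iff₀ hθ] at tσ
        linarith
      have h7 : Real.sqrt 2 ≤ 2 := by
        rw [Real.sqrt_le_left (by norm_num)]; norm_num
      have h8 := Real.sqrt_nonneg 2
      have h9 : |Real.sqrt 2 * ((Px T t').re / σ) - Real.sqrt 2 * ((Px T t).re / σ)| ≤ θ := by
        rw [← mul_sub, abs_mul, abs_of_nonneg h8]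
        have h10 : |(Px T t').re / σ - (Px T t).re / σ| ≤ 1 / σ := by
          rw [← sub_div, abs_div, abs_of_pos hσ0]
          exact div_le_div_of_nonneg_right h3 hσ0.le
        calc Real.sqrt 2 * |(Px T t').re / σ - (Px T t).re / σ| ≤ 2 * (1 / σ) := by gcongr
          _ ≤ θ := by linarith
      have h10 := abs_le.1 h9
      exact ⟨ht'I, by linarith [h10.1], by linarith [h10.2]⟩
    rw [hWE, ← Finset.sum_union hdisj, NN_eq hζ hU1one]
    push_cast
    exact Finset.sum_le_sum_of_subset_of_nonneg (Finset.union_subset (Finset.filter_subset _ _)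
      (Finset.filter_subset _ _)) fun _ _ _ => Nat.cast_nonneg _
  have hpos : 0 ≤ T * (L / (2 * Real.pi)) := by positivity
  set P := T * (L / (2 * Real.pi)) with hP
  have hNN : (NN riemannZeta U1 U2 : ℝ) ≤ P + ε / (64 * K) * P := by
    have h2 := (abs_le.1 (hnn T tT1 U1 U2 hU1 (by linarith) (by linarith) hU2')).2
    have h3 : C1 ≤ ε / (64 * K) * (L / (2 * Real.pi)) := by
      rw [mul_div_assoc', le_div_iff₀ (by positivity)]
      have h3 : 2 * Real.pi * C1 * (64 * K / ε) = (C1 * (2 * Real.pi)) * (64 * K) / ε := by ring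
      rw [h3, div_le_iff₀ hε] at tL2
      rw [div_mul_eq_mul_div, le_div_iff₀ (by positivity)]
      linarith
    have h4 : C1 * T ≤ ε / (64 * K) * P := by
      calc C1 * T ≤ (ε / (64 * K) * (L / (2 * Real.pi))) * T := mul_le_mul_of_nonneg_right h3 hT0.le
        _ = _ := by rw [hP]; ring
    have h5 : T * L / (2 * Real.pi) = P := by
      rw [hP, mul_div_assoc]
    linarith
  set e := ε / (64 * K) with he
  have he0 : 0 < e := by positivity
  have he16 : ε / (16 * K) = 4 * e := by rw [he]; field_simp; ring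
  have hmine : min e 1 ≤ e := min_le_left _ _
  have hcM1 : 1 < cMTinv := cMTinv_gt_one
  have hcM2 := cMTinv_lt
  have hg0 := Gm01_nonneg a b
  -- the four estimates
  have hf1 : ((2 - cMTinv) * Gm01 a b - ε / (16 * K)) * P ≤ near.card := by
    refine le_trans ?_ hmain
    have e1 : ((2 - cMTinv) * Gm01 a b - ε / (16 * K)) * P =
      (((2 - cMTinv) * Gm01 a b - ε / (16 * K)) * T) * (L / (2 * Real.pi)) := by rw [hP]; ring
    rw [e1]
    refine mul_le_mul_of_nonneg_right ?_ (by positivity)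
    have h1 : min e 1 * T ≤ e * T := mul_le_mul_of_nonneg_right hmine hT0.le
    have h2 : (2 - cMTinv) * (T * G' - 2 * δ' * T) ≤ (2 - cMTinv) * volume.real S :=
      mul_le_mul_of_nonneg_left hSlow (by linarith)
    have h3 : (2 - cMTinv) * (T * (Gm01 a b - e)) ≤ (2 - cMTinv) * (T * G') :=
      mul_le_mul_of_nonneg_left (mul_le_mul_of_nonneg_left hG'1 hT0.le) (by linarith)
    have h4 : (2 - cMTinv) * (T * e + 2 * δ' * T) ≤ 1 * (T * e + 2 * e * T) := by
      have : 2 - cMTinv ≤ 1 := by linarith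
      gcongr
    rw [he16]
    nlinarith
  have hf2 : WE ≤ (Gm01 a b + ε / (16 * K)) * P := by
    have h2 : (T - 2 * L - T * Gm01 a b - δ' * T - e * T) * (L / (2 * Real.pi)) ≤
        (volume.real S' - min e 1 * T) * (L / (2 * Real.pi)) := by
      refine mul_le_mul_of_nonneg_right ?_ (by positivity)
      have h1 : min e 1 * T ≤ e * T := mul_le_mul_of_nonneg_right hmine hT0.le
      linarith
    have h3 : (T - e * T - T * Gm01 a b - e * T - e * T) * (L / (2 * Real.pi)) ≤
        (T - 2 * L - T * Gm01 a b - δ' * T - e * T) * (L / (2 * Real.pi)) := by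
      refine mul_le_mul_of_nonneg_right ?_ (by positivity)
      have h4 : 2 * L ≤ e * T := by
        have : ε / (128 * K) = e / 2 := by rw [he]; field_simp; ring
        rw [this] at hLT
        linarith
      have h5 : δ' * T ≤ e * T := mul_le_mul_of_nonneg_right hδ'1 hT0.le
      linarith
    have e1 : (T - e * T - T * Gm01 a b - e * T - e * T) * (L / (2 * Real.pi)) =
        P - (Gm01 a b + 3 * e) * P := by rw [hP]; ring
    rw [e1] at h3
    rw [he16]
    have h6 := hcomp
    linarith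
  have hXc : (X.card : ℝ) ≤ ε / (16 * K) * P := by
    have h2 : (X.card : ℝ) ≤ bad.card := by exact_mod_cast Finset.card_image_le
    refine h2.trans (hbad.trans ?_)
    have h1 : ε3 ≤ ε / (32 * Real.pi * K) := min_le_left _ _
    calc ε3 * (T * L) ≤ ε / (32 * Real.pi * K) * (T * L) := mul_le_mul_of_nonneg_right h1 (by positivity)
      _ = _ := by rw [hP]; field_simp; ring
  have hQc : (((iords U1 U2 (δ / L)).filter (fun x => x ∈ Q)).card : ℝ) = near.card := by
    have h2 : (iords U1 U2 (δ / L)).filter (fun x => x ∈ Q) = Q := by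
      ext x
      rw [Finset.mem_filter]
      constructor
      · exact fun h => h.2
      · intro h
        have h' := h
        rw [hQ, Finset.mem_filter] at h'
        exact ⟨h'.1, h⟩
    rw [h2, hQ, iords_card U1 U2 (δ / L) (fun x => ∃ t ∈ S, |x - t| ≤ h / L)]
  have hmP : (m:ℝ) ≤ ε / 64 * P := by
    have h2 : m * (64 / ε) ≤ P := by
      refine tm.trans ?_
      rw [hP]
      have h3 : 1 ≤ L / (2 * Real.pi) := by
        rw [le_div_iff₀ (by positivity)]
        have : 0 < h1 := by positivity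
        linarith [Real.pi_lt_four]
      nlinarith
    have h3 : (m:ℝ) = ε / 64 * (m * (64 / ε)) := by field_simp
    rw [h3]
    exact mul_le_mul_of_nonneg_left h2 (by positivity)
  have hmA : m * (U2 - U1) / (A / L) ≤ ε / 16 * P := by
    rw [div_le_iff₀ (by positivity)]
    have e1 : ε / 16 * P * (A / L) = K * T := by
      rw [hP, hA]; field_simp; ring
    rw [e1]
    have h2 : (m:ℝ) * (U2 - U1) ≤ m * T := mul_le_mul_of_nonneg_left (by linarith) hm0
    have h3 : (m:ℝ) * T ≤ K * T := mul_le_mul_of_nonneg_right (by linarith) hT0.le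
    linarith
  -- the runs
  have hruns : ({t : ℝ | t ∈ Q ∧ Starts (ords U1 U2 : Set ℝ)
      ((iords U1 U2 (δ / L) \ X : Finset ℝ) : Set ℝ) m (A / L) t}.ncard : ℝ) ≤
      ({t : ℝ | T + 2 ≤ t ∧ Starts (ords U1 U2 : Set ℝ) (gords a b δ T U1 U2 : Set ℝ) m
        (A / L) t}.ncard : ℝ) := by
    have hfin : {t : ℝ | T + 2 ≤ t ∧ Starts (ords U1 U2 : Set ℝ) (gords a b δ T U1 U2 : Set ℝ) m
        (A / L) t}.Finite := by
      refine (gords a b δ T U1 U2).finite_toSet.subset ?_
      rintro t ⟨-, u, -, h0, hu, -⟩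
      rw [← h0]; exact hu 0
    refine Nat.cast_le.2 (Set.ncard_le_ncard ?_ hfin)
    rintro t ⟨htQ, u, hu1, hu2, hu3, hu4, hu5⟩
    rw [hQ, Finset.mem_filter] at htQ
    obtain ⟨-, t', ⟨⟨⟨ht1, ht2⟩, ht3, ht4⟩, htB⟩, htt'⟩ := htQ
    have hhL : (h + A) / L ≤ 1 := by
      rw [div_le_one hL0]
      rw [hh1] at tL
      linarith
    have hAL : 0 ≤ A / L := by positivity
    have hsum : h / L + A / L = (h + A) / L := by ring
    have hnear' : ∀ j, |u j - t'| ≤ (h + A) / L := by
      intro j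
      have h6 : u 0 ≤ u j := hu1.monotone (Fin.zero_le _)
      have h7 : u j ≤ u (Fin.last m) := hu1.monotone (Fin.le_last _)
      have h8 := abs_le.1 htt'
      rw [← hu2] at h8
      rw [abs_le, ← hsum]
      constructor <;> linarith [h8.1, h8.2]
    have hT2 : ∀ j, T + 2 ≤ u j ∧ u j ≤ 2 * T - 2 := by
      intro j
      have h8 := abs_le.1 ((hnear' j).trans hhL)
      have : 10 ≤ L := by
        have : 0 < h1 := by positivity
        linarith
      constructor <;> linarith [h8.1, h8.2]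
    refine ⟨by rw [← hu2]; exact (hT2 0).1, u, hu1, hu2, fun j => ?_, hu4, hu5⟩
    have h6 := hu3 j
    rw [Finset.mem_coe, Finset.mem_sdiff] at h6
    obtain ⟨h7, h8⟩ := h6
    unfold iords at h7
    rw [Finset.mem_image] at h7
    obtain ⟨s, hsI, hsu⟩ := h7
    rw [Finset.mem_coe]
    unfold gords
    rw [Finset.mem_image]
    refine ⟨s, ?_, hsu⟩
    have hnb : s ∉ bad := fun hb => h8 (by rw [hX, ← hsu]; exact Finset.mem_image_of_mem _ hb)
    have hs1 : T + 2 ≤ s.im := by rw [hsu]; exact (hT2 j).1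
    have hs2 : s.im ≤ 2 * T - 2 := by rw [hsu]; exact (hT2 j).2
    have hbd : |Real.log ‖deriv riemannZeta s‖ - Real.log L - (Px T s.im).re| ≤ ε3 * σ := by
      by_contra hcon
      push Not at hcon
      exact hnb (by rw [hbadd, Finset.mem_filter]; exact ⟨hsI, hs1, hs2, hcon⟩)
    rw [Finset.mem_filter]
    have hst : |s.im - t'| ≤ h1 / L := by
      rw [hsu]
      refine (hnear' j).trans (div_le_div_of_nonneg_right ?_ hL0.le)
      rw [hh1]; linarith
    have h1' := hBd3 t' ⟨by linarith, by linarith⟩ htB (s.im - t') hst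
    rw [add_sub_cancel] at h1'
    have h2 := (Complex.abs_re_le_norm _).trans h1'
    rw [Complex.sub_re] at h2
    set y := Real.log ‖deriv riemannZeta s‖ with hy
    have h3 : |(y - Real.log L) - (Px T t').re| ≤ ε3 * σ + 1 := by
      have e : (y - Real.log L) - (Px T t').re = (y - Real.log L - (Px T s.im).re) +
        ((Px T s.im).re - (Px T t').re) := by ring
      rw [e]
      exact (abs_add_le _ _).trans (add_le_add hbd h2)
    have h4 : |(y - Real.log L) / σ - (Px T t').re / σ| ≤ ε3 + 1 / σ := by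
      rw [← sub_div, abs_div, abs_of_pos hσ0, div_le_iff₀ hσ0]
      refine h3.trans (le_of_eq ?_)
      field_simp
    have h5 : 1 / σ ≤ θ / 8 := by
      rw [div_le_div_iff₀ hσ0 (by norm_num)]
      rw [div_le_iff₀ hθ] at tσ
      linarith
    have h6 : ε3 ≤ θ / 4 := min_le_right _ _
    have h7 : Real.sqrt 2 ≤ 2 := by
      rw [Real.sqrt_le_left (by norm_num)]; norm_num
    have h8 := Real.sqrt_nonneg 2
    have h9 : |nrm T y - Real.sqrt 2 * ((Px T t').re / σ)| ≤ θ := by
      unfold nrm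
      rw [← hL, ← hσd, ← mul_sub, abs_mul, abs_of_nonneg h8]
      calc Real.sqrt 2 * |(y - Real.log L) / σ - (Px T t').re / σ| ≤ 2 * (ε3 + 1 / σ) := by gcongr
        _ ≤ θ := by linarith
    have h10 := abs_le.1 h9
    refine ⟨hsI, hs1, hs2, ?_, ?_⟩
    · linarith [h10.1]
    · linarith [h10.2]
  refine le_trans ?_ hruns
  rw [hQc] at hcount
  refine calc_fin (IE := (IE : ℝ)) (X := (X.card : ℝ)) hm0 hK hε hpos hf1 hf2 (by exact_mod_cast hnI) ?_ hXc
  refine le_trans ?_ hcount
  have h2 : (m:ℝ) / 2 * ∑ o ∈ (ords U1 U2 \ iords U1 U2 (δ / L)).filter (fun x => E x), wt U1 U2 o ≤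
      m / 2 * (WE - IE) := mul_le_mul_of_nonneg_left hwt (by positivity)
  rw [← hK]
  linarith

end

end Pool.Agent.J4.H62.RL
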