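import Pool.Agent.J4.H62.RL.Comb
import Pool.Agent.J4.H62.LD.Law

set_option autoImplicit false

/-! The ordinates without an isolated simple zero come in clusters of weight at least two. -/

namespace Pool.Agent.J4.H62.RL

open Filter Topology MeasureTheory Complex H370 TH803UC TH803CL Pool.Agent.Y745.SW

noncomputable section

open Classical in
/-- the multiplicity of an ordinate -/
def wt (U1 U2 x : ℝ) : ℝ := ∑ s ∈ (Zf riemannZeta U1 U2).filter (fun s => s.im = x), (mult riemannZeta s : ℝ)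

/-- the ordinates of the zeros -/
def ords (U1 U2 : ℝ) : Finset ℝ := (Zf riemannZeta U1 U2).image (fun s => s.im)

/-- the ordinates of the isolated simple zeros -/
def iords (U1 U2 d : ℝ) : Finset ℝ := (isoS U1 U2 d).image (fun s => s.im)

lemma isoS_sub (U1 U2 d : ℝ) : isoS U1 U2 d ⊆ Zf riemannZeta U1 U2 := Finset.filter_subset _ _

lemma iords_sub (U1 U2 d : ℝ) : iords U1 U2 d ⊆ ords U1 U2 := Finset.image_subset_image (isoS_sub U1 U2 d)

lemma mult_pos {U1 U2 : ℝ} (hU : 1 ≤ U1) {s : ℂ} (hs : s ∈ Zf riemannZeta U1 U2) :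
    1 ≤ mult riemannZeta s := by
  have hm := (mem_Zf good_zeta hU).mp hs
  exact Loc.mult_pos' good_zeta (by linarith [hm.2.2.1]) hm.2.2.2.2

lemma mult_one {U1 U2 : ℝ} (hU : 1 ≤ U1) {s : ℂ} (hs : s ∈ Zf riemannZeta U1 U2) :
    (1 : ℝ) ≤ mult riemannZeta s := by exact_mod_cast mult_pos hU hs

lemma iso_inj {U1 U2 d : ℝ} {s s' : ℂ} (hs : s ∈ isoS U1 U2 d) (hs' : s' ∈ isoS U1 U2 d)
    (h : s.im = s'.im) : s = s' := by
  unfold isoS at hs hs'
  rw [Finset.mem_filter] at hs hs'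
  apply Complex.ext
  · rw [hs.2.1, hs'.2.1]
  · exact h

lemma wt_one {U1 U2 : ℝ} (hU : 1 ≤ U1) {s : ℂ} (hs : s ∈ Zf riemannZeta U1 U2) :
    (mult riemannZeta s : ℝ) ≤ wt U1 U2 s.im := by
  classical
  unfold wt
  have h1 : s ∈ (Zf riemannZeta U1 U2).filter (fun s' => s'.im = s.im) := Finset.mem_filter.2 ⟨hs, rfl⟩
  refine (Finset.single_le_sum (f := fun s => (mult riemannZeta s : ℝ)) (fun _ _ => Nat.cast_nonneg _) h1).trans
    (le_of_eq ?_)
  refine Finset.sum_congr ?_ fun _ _ => rfl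
  ext x; simp only [Finset.mem_filter]

lemma wt_two {U1 U2 : ℝ} (hU : 1 ≤ U1) {s s' : ℂ} (hs : s ∈ Zf riemannZeta U1 U2)
    (hs' : s' ∈ Zf riemannZeta U1 U2) (hne : s ≠ s') (him : s'.im = s.im) : 2 ≤ wt U1 U2 s.im := by
  classical
  unfold wt
  have h1 : ({s, s'} : Finset ℂ) ⊆ (Zf riemannZeta U1 U2).filter (fun s' => s'.im = s.im) := by
    intro x hx
    simp only [Finset.mem_insert, Finset.mem_singleton] at hx
    rcases hx with rfl | rfl
    · exact Finset.mem_filter.2 ⟨hs, rfl⟩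
    · exact Finset.mem_filter.2 ⟨hs', him⟩
  have h2 : ∑ x ∈ ({s, s'} : Finset ℂ), (mult riemannZeta x : ℝ) ≤
      ∑ x ∈ (Zf riemannZeta U1 U2).filter (fun s' => s'.im = s.im), (mult riemannZeta x : ℝ) :=
    Finset.sum_le_sum_of_subset_of_nonneg h1 fun _ _ _ => Nat.cast_nonneg _
  rw [Finset.sum_pair hne] at h2
  have h3 := mult_one hU hs
  have h4 := mult_one hU hs'
  refine le_trans (by linarith) (h2.trans (le_of_eq ?_))
  refine Finset.sum_congr ?_ fun _ _ => rfl
  ext x; simp only [Finset.mem_filter]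

lemma cluster1 {U1 U2 d : ℝ} (hU : 1 ≤ U1) : ∀ o ∈ ords U1 U2, o ∉ iords U1 U2 d → 1 ≤ wt U1 U2 o := by
  intro o ho _
  unfold ords at ho
  rw [Finset.mem_image] at ho
  obtain ⟨s, hs, rfl⟩ := ho
  exact (mult_one hU hs).trans (wt_one hU hs)

lemma cluster2 {U1 U2 d : ℝ} (hU : 1 ≤ U1) : ∀ o ∈ ords U1 U2, o ∉ iords U1 U2 d → 2 ≤ wt U1 U2 o ∨
    ∃ o' ∈ ords U1 U2, o' ≠ o ∧ |o' - o| < d ∧
      ∀ x ∈ ords U1 U2, (o ≤ x ∧ x ≤ o' ∨ o' ≤ x ∧ x ≤ o) → x ∉ iords U1 U2 d := by
  classical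
  intro o ho hoG
  unfold ords at ho
  rw [Finset.mem_image] at ho
  obtain ⟨s, hs, rfl⟩ := ho
  by_cases hre : s.re = 1 / 2
  swap
  · left
    have hm := (mem_Zf good_zeta hU).mp hs
    have h1 := zset_refl good_zeta hU hm
    have h2 : (1 - (starRingEnd ℂ) s) ∈ Zf riemannZeta U1 U2 := (mem_Zf good_zeta hU).mpr h1
    refine wt_two hU hs h2 ?_ (by simp)
    intro h
    apply hre
    have := congrArg Complex.re h
    simp at this
    linarith
  by_cases hmul : mult riemannZeta s = 1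
  swap
  · left
    refine le_trans ?_ (wt_one hU hs)
    have h3 := mult_pos hU hs
    have h4 : 2 ≤ mult riemannZeta s := by omega
    exact_mod_cast h4
  -- simple, on the line, not isolated
  have hnot : s ∉ isoS U1 U2 d := fun h => hoG (Finset.mem_image.2 ⟨s, h, rfl⟩)
  unfold isoS at hnot
  rw [Finset.mem_filter] at hnot
  have h5 : ∃ s' ∈ Zf riemannZeta U1 U2, s' ≠ s ∧ ‖s - s'‖ < d := by
    by_contra h
    push Not at h
    exact hnot ⟨hs, hre, hmul, h⟩
  obtain ⟨s', hs', hne, hlt⟩ := h5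
  by_cases him : s'.im = s.im
  · left
    exact wt_two hU hs hs' (Ne.symm hne) him
  right
  have h6 : |s'.im - s.im| < d := by
    refine lt_of_le_of_lt ?_ hlt
    have := Complex.abs_im_le_norm (s - s')
    rw [Complex.sub_im, abs_sub_comm] at this
    exact this
  refine ⟨s'.im, Finset.mem_image.2 ⟨s', hs', rfl⟩, him, h6, ?_⟩
  intro x hx hbet hxG
  unfold iords at hxG
  rw [Finset.mem_image] at hxG
  obtain ⟨g, hg, rfl⟩ := hxG
  have hgs : s ≠ g := by
    rintro rfl
    exact hoG (Finset.mem_image.2 ⟨s, hg, rfl⟩)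
  unfold isoS at hg
  rw [Finset.mem_filter] at hg
  have h7 := hg.2.2.2 s hs hgs
  have h8 : ‖g - s‖ = |g.im - s.im| := by
    have : g - s = ((g.im - s.im : ℝ) : ℂ) * I := by
      apply Complex.ext
      · simp [hg.2.1, hre]
      · simp
    rw [this, norm_mul, Complex.norm_I, mul_one, Complex.norm_real, Real.norm_eq_abs]
  rw [h8] at h7
  have h9 : |g.im - s.im| ≤ |s'.im - s.im| := by
    rcases hbet with ⟨h1, h2⟩ | ⟨h1, h2⟩
    · rw [abs_of_nonneg (by linarith), abs_of_nonneg (by linarith)]; linarith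
    · rw [abs_of_nonpos (by linarith), abs_of_nonpos (by linarith)]; linarith
  linarith

open Classical in
/-- the weight of the bad ordinates -/
lemma wt_sum {U1 U2 d : ℝ} (hU : 1 ≤ U1) (E : ℝ → Prop) :
    ∑ o ∈ (ords U1 U2 \ iords U1 U2 d).filter (fun x => E x), wt U1 U2 o ≤
      ∑ s ∈ (Zf riemannZeta U1 U2).filter (fun s => E s.im), (mult riemannZeta s : ℝ) -
        (((isoS U1 U2 d).filter (fun s => E s.im)).card : ℝ) := by
  set S := ords U1 U2 with hS
  set G := iords U1 U2 d with hG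
  set A := (Zf riemannZeta U1 U2).filter (fun s => E s.im) with hA
  set I := (isoS U1 U2 d).filter (fun s => E s.im) with hI
  have hIA : I ⊆ A := by
    intro s hs
    rw [hI, Finset.mem_filter] at hs
    rw [hA, Finset.mem_filter]
    exact ⟨isoS_sub _ _ _ hs.1, hs.2⟩
  have h1 : ∑ s ∈ A \ I, (mult riemannZeta s : ℝ) + ∑ s ∈ I, (mult riemannZeta s : ℝ) =
      ∑ s ∈ A, (mult riemannZeta s : ℝ) := Finset.sum_sdiff hIA
  have h2 : ∑ s ∈ I, (mult riemannZeta s : ℝ) = I.card := by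
    rw [Finset.card_eq_sum_ones]
    push_cast
    refine Finset.sum_congr rfl fun s hs => ?_
    rw [hI, Finset.mem_filter] at hs
    have := hs.1
    unfold isoS at this
    rw [Finset.mem_filter] at this
    rw [this.2.2.1, Nat.cast_one]
  have h3 : ∑ o ∈ (S \ G).filter (fun x => E x), wt U1 U2 o ≤ ∑ s ∈ A \ I, (mult riemannZeta s : ℝ) := by
    have h4 : ∑ o ∈ (S \ G).filter (fun x => E x), wt U1 U2 o =
        ∑ s ∈ (Zf riemannZeta U1 U2).filter (fun s => s.im ∈ (S \ G).filter (fun x => E x)),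
          (mult riemannZeta s : ℝ) := by
      rw [← Finset.sum_fiberwise_of_maps_to (s := (Zf riemannZeta U1 U2).filter
        (fun s => s.im ∈ (S \ G).filter (fun x => E x))) (t := (S \ G).filter (fun x => E x))
        (g := fun s => s.im) (fun s hs => (Finset.mem_filter.1 hs).2)]
      refine Finset.sum_congr rfl fun o ho => ?_
      unfold wt
      refine Finset.sum_congr ?_ fun _ _ => rfl
      ext s
      simp only [Finset.mem_filter]
      rw [Finset.mem_filter] at ho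
      constructor
      · rintro ⟨h5, rfl⟩
        exact ⟨⟨h5, ho.1, ho.2⟩, rfl⟩
      · rintro ⟨⟨h5, -⟩, h6⟩
        exact ⟨h5, h6⟩
    rw [h4]
    refine Finset.sum_le_sum_of_subset_of_nonneg ?_ fun _ _ _ => Nat.cast_nonneg _
    intro s hs
    rw [Finset.mem_filter, Finset.mem_filter, Finset.mem_sdiff] at hs
    obtain ⟨h5, ⟨h6, h7⟩, h8⟩ := hs
    rw [Finset.mem_sdiff, hA, hI, Finset.mem_filter, Finset.mem_filter]
    refine ⟨⟨h5, h8⟩, fun h9 => h7 ?_⟩
    exact Finset.mem_image.2 ⟨s, h9.1, rfl⟩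
  linarith

open Classical in
/-- the number of isolated zeros as a number of ordinates -/
lemma iords_card (U1 U2 d : ℝ) (E : ℝ → Prop) :
    ((iords U1 U2 d).filter (fun x => E x)).card = ((isoS U1 U2 d).filter (fun s => E s.im)).card := by
  symm
  refine Finset.card_bij (fun s _ => s.im) ?_ ?_ ?_
  · intro s hs
    rw [Finset.mem_filter] at hs ⊢
    exact ⟨Finset.mem_image.2 ⟨s, hs.1, rfl⟩, hs.2⟩
  · intro s hs s' hs' h
    rw [Finset.mem_filter] at hs hs'
    exact iso_inj hs.1 hs'.1 h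
  · intro x hx
    rw [Finset.mem_filter] at hx
    unfold iords at hx
    rw [Finset.mem_image] at hx
    obtain ⟨⟨s, hs, rfl⟩, h⟩ := hx
    exact ⟨s, Finset.mem_filter.2 ⟨hs, h⟩, rfl⟩

end

end Pool.Agent.J4.H62.RL
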