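import Pool.Agent.TH299.Runs

set_option autoImplicit false

/-!
# Runs of good points, a local version

The bad points come in clusters of weight at least two; a cluster destroys at most `m` runs of `m + 1` points.
Only the clusters near the set of the possible starting points are counted.
-/

namespace Pool.Agent.J4.H62.RL

open Finset Pool.Agent.TH299.Runs

open Classical in
/-- the index version -/
lemma count_index_loc (f : ℕ → ℝ) (hf : Monotone f) (a b : ℝ) (ha : ∀ i, a ≤ f i) (hb : ∀ i, f i ≤ b)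
    (n m : ℕ) (P Q X E : ℕ → Prop) (L : ℝ) (hL : 0 < L)
    (hE : ∀ i k, i < n → k < n → Q i → i ≤ k → f k ≤ f i + L → E k) :
    (((range n).filter fun i => P i ∧ Q i).card : ℝ) -
      m * (((range n).filter fun k => ¬ P k ∧ E k ∧ ∃ j, k = j + 1 ∧ P j).card : ℝ) - m
      - m * (b - a) / L - (m + 1) * (((range n).filter X).card : ℝ) ≤
    (((range n).filter fun i => Q i ∧ (i + m < n) ∧ (∀ j, j ≤ m → P (i + j) ∧ ¬ X (i + j)) ∧
      f (i + m) - f i ≤ L).card : ℝ) := by
  set A := (range n).filter fun i => P i ∧ Q i with hA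
  set B := (range n).filter fun k => ¬ P k ∧ E k ∧ ∃ j, k = j + 1 ∧ P j with hB
  set R := (range n).filter fun i => Q i ∧ (i + m < n) ∧ (∀ j, j ≤ m → P (i + j) ∧ ¬ X (i + j)) ∧
      f (i + m) - f i ≤ L with hR
  set E0 := (range n).filter fun i => n ≤ i + m with hE0
  set D := fun j : ℕ => (range n).filter fun i => (i + j) ∈ B with hD
  set XX := (range n).filter X with hXX
  set DX := fun j : ℕ => (range n).filter fun i => (i + j) ∈ XX with hDX
  set Z := (range n).filter fun i => L < f (i + m) - f i with hZ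
  have hcover : A ⊆ R ∪ (E0 ∪ ((Finset.Icc 1 m).biUnion D ∪ (Z ∪ (Finset.range (m + 1)).biUnion DX))) := by
    intro i hi
    simp only [A, mem_filter, mem_range] at hi
    obtain ⟨hin, hPi, hQi⟩ := hi
    by_cases h1 : n ≤ i + m
    · rw [mem_union, mem_union]
      exact Or.inr (Or.inl (by simp only [E0, mem_filter, mem_range]; exact ⟨hin, h1⟩))
    push Not at h1
    by_cases h3 : f (i + m) - f i ≤ L
    swap
    · rw [mem_union, mem_union, mem_union, mem_union]
      exact Or.inr (Or.inr (Or.inr (Or.inl (by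
        simp only [Z, mem_filter, mem_range]; exact ⟨hin, lt_of_not_ge h3⟩))))
    by_cases h2 : ∀ j, j ≤ m → P (i + j)
    · by_cases h4 : ∀ j, j ≤ m → ¬ X (i + j)
      · rw [mem_union]
        exact Or.inl (by
          simp only [R, mem_filter, mem_range]
          exact ⟨hin, hQi, h1, fun j hj => ⟨h2 j hj, h4 j hj⟩, h3⟩)
      · push Not at h4
        obtain ⟨j, hj1, hj2⟩ := h4
        rw [mem_union, mem_union, mem_union, mem_union]
        refine Or.inr (Or.inr (Or.inr (Or.inr ?_)))
        rw [mem_biUnion]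
        refine ⟨j, mem_range.2 (by omega), ?_⟩
        simp only [DX, XX, mem_filter, mem_range]
        exact ⟨hin, by omega, hj2⟩
    · push Not at h2
      have hex : ∃ j, j ≤ m ∧ ¬ P (i + j) := h2
      set j := Nat.find hex with hj
      have hj1 := Nat.find_spec hex
      rw [← hj] at hj1
      have hj0 : j ≠ 0 := by
        intro h
        rw [h] at hj1
        exact hj1.2 hPi
      have hjm : P (i + (j - 1)) := by
        by_contra hc
        have := Nat.find_min hex (m := j - 1) (by omega)
        exact this ⟨by omega, hc⟩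
      rw [mem_union, mem_union, mem_union]
      refine Or.inr (Or.inr (Or.inl ?_))
      rw [mem_biUnion]
      refine ⟨j, mem_Icc.2 ⟨by omega, hj1.1⟩, ?_⟩
      simp only [D, B, mem_filter, mem_range]
      refine ⟨hin, by omega, hj1.2, ?_, ⟨i + (j - 1), by omega, hjm⟩⟩
      refine hE i (i + j) hin (by omega) hQi (by omega) ?_
      have : f (i + j) ≤ f (i + m) := hf (by omega)
      linarith
  have hE0c : E0.card ≤ m := by
    have : E0 ⊆ Finset.Ico (n - m) n := by
      intro i hi
      simp only [E0, mem_filter, mem_range] at hi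
      rw [mem_Ico]; omega
    calc E0.card ≤ (Finset.Ico (n - m) n).card := card_le_card this
      _ ≤ m := by rw [Nat.card_Ico]; omega
  have hDc : ∀ j, (D j).card ≤ B.card := by
    intro j
    refine Finset.card_le_card_of_injOn (fun i => i + j) ?_ ?_
    · intro i hi
      simp only [D, coe_filter, Set.mem_ofPred_eq] at hi
      exact hi.2
    · intro i _ i' _ h
      simpa using h
  have hDXc : ∀ j, (DX j).card ≤ XX.card := by
    intro j
    refine Finset.card_le_card_of_injOn (fun i => i + j) ?_ ?_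
    · intro i hi
      simp only [DX, coe_filter, Set.mem_ofPred_eq] at hi
      exact hi.2
    · intro i _ i' _ h
      simpa using h
  have hDD : ((Finset.Icc 1 m).biUnion D).card ≤ m * B.card := by
    refine (card_biUnion_le).trans ?_
    refine (Finset.sum_le_sum fun j _ => hDc j).trans ?_
    simp
  have hDDX : ((Finset.range (m + 1)).biUnion DX).card ≤ (m + 1) * XX.card := by
    refine (card_biUnion_le).trans ?_
    refine (Finset.sum_le_sum fun j _ => hDXc j).trans ?_
    simp
  have hQ : (Z.card : ℝ) ≤ m * (b - a) / L := by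
    rw [le_div_iff₀ hL]
    have h1 : (Z.card : ℝ) * L = ∑ i ∈ Z, L := by simp
    rw [h1]
    calc ∑ i ∈ Z, L ≤ ∑ i ∈ Z, (f (i + m) - f i) := by
          refine Finset.sum_le_sum fun i hi => ?_
          simp only [Z, mem_filter] at hi
          exact hi.2.le
      _ ≤ ∑ i ∈ range n, (f (i + m) - f i) := by
          refine Finset.sum_le_sum_of_subset_of_nonneg (Finset.filter_subset _ _) fun i _ _ => ?_
          exact sub_nonneg.mpr (hf (Nat.le_add_right _ _))
      _ ≤ m * (b - a) := sum_diff_le f a b ha hb n m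
  have h1 : A.card ≤ R.card + (E0.card + (((Finset.Icc 1 m).biUnion D).card + (Z.card +
      ((Finset.range (m + 1)).biUnion DX).card))) := by
    refine (card_le_card hcover).trans ?_
    refine (card_union_le _ _).trans ?_
    gcongr
    refine (card_union_le _ _).trans ?_
    gcongr
    refine (card_union_le _ _).trans ?_
    gcongr
    exact card_union_le _ _
  have h2 : (A.card : ℝ) ≤ R.card + (E0.card + (((Finset.Icc 1 m).biUnion D).card + (Z.card +
      ((Finset.range (m + 1)).biUnion DX).card))) := by exact_mod_cast h1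
  have h3 : (E0.card : ℝ) ≤ m := by exact_mod_cast hE0c
  have h4 : (((Finset.Icc 1 m).biUnion D).card : ℝ) ≤ m * B.card := by exact_mod_cast hDD
  have h5 : (((Finset.range (m + 1)).biUnion DX).card : ℝ) ≤ (m + 1) * XX.card := by exact_mod_cast hDDX
  linarith

open Classical in
/-- **counting runs, local version** -/
theorem count_loc (S G Q X : Finset ℝ) (hG : G ⊆ S) (a b : ℝ) (hS : ∀ s ∈ S, a < s ∧ s ≤ b) (hab : a ≤ b)
    (m : ℕ) (L d : ℝ) (hL : 0 < L) (hd : 0 ≤ d) (E : ℝ → Prop) (w : ℝ → ℝ)
    (hEQ : ∀ s ∈ Q, ∀ o ∈ S, s ≤ o → o ≤ s + L + d → E o)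
    (hw1 : ∀ o ∈ S, o ∉ G → 1 ≤ w o)
    (hw2 : ∀ o ∈ S, o ∉ G → 2 ≤ w o ∨ ∃ o' ∈ S, o' ≠ o ∧ |o' - o| < d ∧
      ∀ x ∈ S, (o ≤ x ∧ x ≤ o' ∨ o' ≤ x ∧ x ≤ o) → x ∉ G) :
    ((G.filter (fun x => x ∈ Q)).card : ℝ) - m / 2 * ∑ o ∈ (S \ G).filter (fun x => E x), w o - m
      - m * (b - a) / L - (m + 1) * (X.card : ℝ) ≤
      ({t : ℝ | t ∈ Q ∧ Starts (S : Set ℝ) ((G \ X : Finset ℝ) : Set ℝ) m L t}.ncard : ℝ) := by
  set n := S.card with hn
  set e := S.orderEmbOfFin hn.symm with he
  have hmem : ∀ i, e i ∈ S := fun i => Finset.orderEmbOfFin_mem S hn.symm i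
  set f : ℕ → ℝ := fun i => if h : i < n then e ⟨i, h⟩ else b with hf
  have hfi : ∀ (i : ℕ) (h : i < n), f i = e ⟨i, h⟩ := fun i h => by simp [hf, h]
  have hfS : ∀ (i : ℕ), i < n → f i ∈ S := fun i h => by rw [hfi i h]; exact hmem _
  have hmono : Monotone f := by
    intro i j hij
    by_cases hj : j < n
    · have hi : i < n := lt_of_le_of_lt hij hj
      rw [hfi i hi, hfi j hj]
      exact e.monotone (by simpa using hij)
    · have : f j = b := by simp [hf, hj]
      rw [this]
      by_cases hi : i < n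
      · rw [hfi i hi]; exact (hS _ (hmem _)).2
      · simp [hf, hi]
  have hstrict : ∀ i j : ℕ, j < n → i < j → f i < f j := by
    intro i j hj hij
    rw [hfi i (hij.trans hj), hfi j hj]
    exact e.strictMono (by simpa using hij)
  have ha : ∀ i, a ≤ f i := by
    intro i
    by_cases hi : i < n
    · rw [hfi i hi]; exact (hS _ (hmem _)).1.le
    · simp [hf, hi, hab]
  have hb : ∀ i, f i ≤ b := by
    intro i
    by_cases hi : i < n
    · rw [hfi i hi]; exact (hS _ (hmem _)).2
    · simp [hf, hi]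
  have hinj : Set.InjOn f (Set.Iio n) := by
    intro i hi j hj h
    rw [hfi i hi, hfi j hj] at h
    exact congrArg Fin.val (e.injective h)
  have hsurj : ∀ s ∈ S, ∃ i, i < n ∧ f i = s := by
    intro s hs
    have : s ∈ Set.range e := by
      rw [he, Finset.range_orderEmbOfFin]; exact hs
    obtain ⟨i, hi⟩ := this
    exact ⟨i, i.2, by rw [hfi i i.2]; exact hi⟩
  have key : (((range n).filter fun i => f i ∈ G ∧ f i ∈ Q).card : ℝ) -
      m * (((range n).filter fun k => ¬ f k ∈ G ∧ (∃ s ∈ Q, s ≤ f k ∧ f k ≤ s + L) ∧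
        ∃ j, k = j + 1 ∧ f j ∈ G).card : ℝ) - m
      - m * (b - a) / L - (m + 1) * (((range n).filter fun i => f i ∈ X).card : ℝ) ≤
    (((range n).filter fun i => f i ∈ Q ∧ (i + m < n) ∧ (∀ j, j ≤ m → f (i + j) ∈ G ∧ ¬ f (i + j) ∈ X) ∧
      f (i + m) - f i ≤ L).card : ℝ) := by
    convert count_index_loc f hmono a b ha hb n m (fun i => f i ∈ G) (fun i => f i ∈ Q) (fun i => f i ∈ X)
      (fun k => ∃ s ∈ Q, s ≤ f k ∧ f k ≤ s + L) L hL (fun i k _ _ hQi hik hfk => ⟨f i, hQi, hmono hik, hfk⟩)
  have hA : ((range n).filter fun i => f i ∈ G ∧ f i ∈ Q).card = (G.filter (fun x => x ∈ Q)).card := by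
    refine Finset.card_bij (fun i _ => f i) ?_ ?_ ?_
    · intro i hi; rw [mem_filter]; exact (mem_filter.mp hi).2
    · intro i hi j hj h
      exact hinj (by simpa using (mem_filter.mp hi).1) (by simpa using (mem_filter.mp hj).1) h
    · intro s hs
      rw [mem_filter] at hs
      obtain ⟨i, hi, h⟩ := hsurj s (hG hs.1)
      exact ⟨i, mem_filter.mpr ⟨mem_range.mpr hi, by rw [h]; exact hs⟩, h⟩
  have hXc : ((range n).filter fun i => f i ∈ X).card ≤ X.card := by
    refine Finset.card_le_card_of_injOn f ?_ ?_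
    · intro i hi
      simp only [coe_filter, Set.mem_ofPred_eq] at hi
      exact hi.2
    · intro i hi j hj h
      simp only [coe_filter, Set.mem_ofPred_eq, mem_range] at hi hj
      exact hinj hi.1 hj.1 h
  -- the clusters
  set B1 := (range n).filter fun k => ¬ f k ∈ G ∧ (∃ s ∈ Q, s ≤ f k ∧ f k ≤ s + L) ∧ ∃ j, k = j + 1 ∧ f j ∈ G with hB1
  have hB : 2 * (B1.card : ℝ) ≤ ∑ o ∈ (S \ G).filter (fun x => E x), w o := by
    set BB := (range n).filter fun k => ¬ f k ∈ G ∧ E (f k) with hBB
    have h0 : ∑ o ∈ (S \ G).filter (fun x => E x), w o = ∑ k ∈ BB, w (f k) := by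
      symm
      refine Finset.sum_bij (fun i _ => f i) ?_ ?_ ?_ ?_
      · intro i hi
        rw [hBB, mem_filter, mem_range] at hi
        rw [mem_filter, mem_sdiff]
        exact ⟨⟨hfS i hi.1, hi.2.1⟩, hi.2.2⟩
      · intro i hi j hj h
        exact hinj (by simpa using (mem_filter.mp hi).1) (by simpa using (mem_filter.mp hj).1) h
      · intro s hs
        rw [mem_filter, mem_sdiff] at hs
        obtain ⟨i, hi, h⟩ := hsurj s hs.1.1
        exact ⟨i, mem_filter.mpr ⟨mem_range.mpr hi, by rw [h]; exact ⟨hs.1.2, hs.2⟩⟩, h⟩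
      · intro i _; rfl
    rw [h0]
    set B2 := B1.filter fun k => k + 1 ∈ BB with hB2
    have hB2i : ∑ k ∈ B2, w (f (k + 1)) = ∑ k ∈ B2.image (fun k => k + 1), w (f k) := by
      rw [Finset.sum_image]
      intro i _ j _ h
      simpa using h
    have hdisj : Disjoint B1 (B2.image (fun k => k + 1)) := by
      rw [Finset.disjoint_left]
      intro k hk hk'
      rw [mem_image] at hk'
      obtain ⟨l, hl, hlk⟩ := hk'
      rw [hB1, mem_filter] at hk
      obtain ⟨-, -, -, j, hj, hjG⟩ := hk
      rw [hB2, mem_filter, hB1, mem_filter] at hl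
      have : l = j := by omega
      rw [this] at hl
      exact hl.1.2.1 hjG
    have hsub : B1 ∪ B2.image (fun k => k + 1) ⊆ BB := by
      intro k hk
      rw [mem_union] at hk
      rcases hk with hk | hk
      · rw [hB1, mem_filter, mem_range] at hk
        obtain ⟨h1, h2, ⟨s, hs, hs1, hs2⟩, -⟩ := hk
        rw [hBB, mem_filter, mem_range]
        exact ⟨h1, h2, hEQ s hs _ (hfS k h1) hs1 (by linarith)⟩
      · rw [mem_image] at hk
        obtain ⟨l, hl, rfl⟩ := hk
        rw [hB2, mem_filter] at hl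
        exact hl.2
    have h1 : ∑ k ∈ B1 ∪ B2.image (fun k => k + 1), w (f k) ≤ ∑ k ∈ BB, w (f k) := by
      refine Finset.sum_le_sum_of_subset_of_nonneg hsub fun k hk _ => ?_
      rw [hBB, mem_filter, mem_range] at hk
      linarith [hw1 _ (hfS k hk.1) hk.2.1]
    have hB2s : ∑ k ∈ B2, w (f (k + 1)) = ∑ k ∈ B1, if k + 1 ∈ BB then w (f (k + 1)) else 0 := by
      rw [hB2]
      exact Finset.sum_filter _ _
    rw [Finset.sum_union hdisj, ← hB2i, hB2s, ← Finset.sum_add_distrib] at h1
    refine le_trans ?_ h1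
    have h2 : 2 * (B1.card : ℝ) = ∑ k ∈ B1, (2:ℝ) := by rw [Finset.sum_const, nsmul_eq_mul]; ring
    rw [h2]
    refine Finset.sum_le_sum fun k hk => ?_
    rw [hB1, mem_filter, mem_range] at hk
    obtain ⟨hk1, hk2, ⟨s, hs, hs1, hs2⟩, j, hj, hjG⟩ := hk
    have hk3 := hw1 _ (hfS k hk1) hk2
    rcases hw2 _ (hfS k hk1) hk2 with h3 | ⟨o', ho'S, hne, hlt, hall⟩
    · split_ifs with h4
      · rw [hBB, mem_filter, mem_range] at h4
        linarith [hw1 _ (hfS _ h4.1) h4.2.1]
      · linarith
    · -- the partner is to the right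
      obtain ⟨l, hl, hlo⟩ := hsurj o' ho'S
      have hkl : k < l := by
        by_contra hc
        push Not at hc
        rcases hc.lt_or_eq with hc | hc
        · have h4 : f l ≤ f j := hmono (by omega)
          have h5 : f j ≤ f k := hmono (by omega)
          exact hall (f j) (hfS j (by omega)) (Or.inr ⟨by rw [← hlo]; exact h4, h5⟩) hjG
        · apply hne
          rw [← hlo, hc]
      have h4 : k + 1 < n := by omega
      have h5 : f (k + 1) ≤ o' := by rw [← hlo]; exact hmono (by omega)
      have h6 : f k ≤ f (k + 1) := hmono (by omega)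
      have h7 : f (k + 1) ∉ G := hall _ (hfS _ h4) (Or.inl ⟨h6, h5⟩)
      have h8 : E (f (k + 1)) := by
        refine hEQ s hs _ (hfS _ h4) (hs1.trans h6) ?_
        have := (abs_lt.1 hlt).2
        linarith
      have h9 : k + 1 ∈ BB := by rw [hBB, mem_filter, mem_range]; exact ⟨h4, h7, h8⟩
      rw [if_pos h9]
      linarith [hw1 _ (hfS _ h4) h7]
  rw [hA] at key
  have hm : (0:ℝ) ≤ m := Nat.cast_nonneg m
  have hXc' : (((range n).filter fun i => f i ∈ X).card : ℝ) ≤ X.card := by exact_mod_cast hXc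
  have h1 : (m:ℝ) / 2 * (2 * (B1.card : ℝ)) ≤ m / 2 * ∑ o ∈ (S \ G).filter (fun x => E x), w o :=
    mul_le_mul_of_nonneg_left hB (by positivity)
  have h2 : ((m:ℝ) + 1) * (((range n).filter fun i => f i ∈ X).card : ℝ) ≤ (m + 1) * X.card :=
    mul_le_mul_of_nonneg_left hXc' (by positivity)
  have hfin : {t : ℝ | t ∈ Q ∧ Starts (S : Set ℝ) ((G \ X : Finset ℝ) : Set ℝ) m L t}.Finite :=
    Q.finite_toSet.subset fun t ht => ht.1
  have hle : ((range n).filter fun i => f i ∈ Q ∧ (i + m < n) ∧ (∀ j, j ≤ m → f (i + j) ∈ G ∧ ¬ f (i + j) ∈ X) ∧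
      f (i + m) - f i ≤ L).card ≤
      {t : ℝ | t ∈ Q ∧ Starts (S : Set ℝ) ((G \ X : Finset ℝ) : Set ℝ) m L t}.ncard := by
    rw [← Set.ncard_coe_finset]
    refine Set.ncard_le_ncard_of_injOn f ?_ ?_ hfin
    · intro i hi
      simp only [coe_filter, Set.mem_ofPred_eq, mem_range] at hi
      obtain ⟨hi, hiQ, him, hP, hlen⟩ := hi
      refine ⟨hiQ, fun j => f (i + j), ?_, by simp, ?_, ?_, ?_⟩
      · intro j j' hjj
        have h1 : i + (j : ℕ) < n := by have := j.2; omega
        have h2 : i + (j' : ℕ) < n := by have := j'.2; omega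
        show f (i + j) < f (i + j')
        rw [hfi _ h1, hfi _ h2]
        apply e.strictMono
        rw [Fin.lt_def] at hjj ⊢
        simpa using hjj
      · intro j
        have := hP j (by have := j.2; omega)
        rw [Finset.mem_coe, mem_sdiff]
        exact this
      · intro s hs h1 h2
        obtain ⟨l, hl, hfl⟩ := hsurj s hs
        have h3 : i ≤ l := by
          by_contra h
          push Not at h
          have h4 : f l < f i := hstrict l i hi h
          simp at h1
          linarith
        have h5 : l ≤ i + m := by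
          by_contra h
          push Not at h
          have h4 : f (i + m) < f l := hstrict (i + m) l hl h
          simp at h2
          linarith
        refine ⟨⟨l - i, by omega⟩, ?_⟩
        show f (i + (l - i)) = s
        rw [show i + (l - i) = l by omega, hfl]
      · simpa using hlen
    · intro i hi j hj h
      simp only [coe_filter, Set.mem_ofPred_eq, mem_range] at hi hj
      exact hinj hi.1 hj.1 h
  have hle' : (((range n).filter fun i => f i ∈ Q ∧ (i + m < n) ∧ (∀ j, j ≤ m → f (i + j) ∈ G ∧ ¬ f (i + j) ∈ X) ∧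
      f (i + m) - f i ≤ L).card : ℝ) ≤
      {t : ℝ | t ∈ Q ∧ Starts (S : Set ℝ) ((G \ X : Finset ℝ) : Set ℝ) m L t}.ncard := by exact_mod_cast hle
  linarith

end Pool.Agent.J4.H62.RL
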