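import Pool.Agent.J4.H62.RL.Blk

set_option autoImplicit false

/-! Runs of consecutive isolated simple zeros with the law of the derivative: assembly. -/

namespace Pool.Agent.J4.H62.RL

open Filter Topology MeasureTheory Complex H370 TH803UC TH803CL Pool.Agent.Y745.SW Pool.Agent.TH299.Runs
open Pool.Agent.J4.H62.LD

noncomputable section

/-- **runs with the law of the derivative** -/
theorem runs_law {a b ε : ℝ} (hab : a < b) (hε : 0 < ε) (m : ℕ) :
    ∃ δ A : ℝ, 0 < δ ∧ δ ≤ 1 / 10 ∧ 0 < A ∧ ∀ᶠ T : ℝ in atTop,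
    ∃ U1 U2 : ℝ, T ≤ U1 ∧ U1 ≤ T + 1 ∧ 2 * T - 1 ≤ U2 ∧ U2 ≤ 2 * T ∧
    (((2 - cMTinv) - m * (cMTinv - 1) / 2) * Gm01 a b - ε) * (NN riemannZeta T (2 * T) : ℝ) ≤
      ({t : ℝ | T + 2 ≤ t ∧ Starts (ords U1 U2 : Set ℝ) (gords a b δ T U1 U2 : Set ℝ) m
        (A / Real.log T) t}.ncard : ℝ) := by
  have hpi := Real.pi_pos
  obtain ⟨δ, A, hδ, hδ1, hA, hev⟩ := block_runs good_zeta a_BLK a_BLKx a_IND Pool.Agent.Y895.SW.t_BV a_DER hab
    (show 0 < ε / 2 by positivity) m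
  refine ⟨δ, A, hδ, hδ1, hA, ?_⟩
  obtain ⟨C1, T1, hC1, hT1, hnn⟩ := nn_asymp good_zeta
  have hcM1 : 1 < cMTinv := cMTinv_gt_one
  filter_upwards [hev, eventually_ge_atTop T1, Real.tendsto_log_atTop.eventually_ge_atTop
    (2 * Real.pi * C1 * (2 / ε) + 1), eventually_ge_atTop 10] with T t1 t3 t4 t5
  obtain ⟨U1, U2, hU1, hU1', hU2, hU2', hc⟩ := t1
  refine ⟨U1, U2, hU1, hU1', hU2, hU2', ?_⟩
  have hT0 : 0 < T := by linarith
  set L := Real.log T with hL
  have hL0 : 0 < L := by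
    have : 0 < 2 * Real.pi * C1 * (2 / ε) := by positivity
    linarith
  have hnn' := (abs_le.1 (hnn T t3 T (2 * T) le_rfl (by linarith) (by linarith) le_rfl)).2
  have hnn'' : (NN riemannZeta T (2 * T) : ℝ) ≤ T * (L / (2 * Real.pi)) + C1 * T := by
    have e : T * L / (2 * Real.pi) = T * (L / (2 * Real.pi)) := by ring
    linarith
  have hg0 := Gm01_nonneg a b
  have hg1 := Gm01_le a b
  have hCT : C1 * T ≤ ε / 2 * (T * (L / (2 * Real.pi))) := by
    have h1 : 2 * Real.pi * C1 * (2 / ε) ≤ L := by linarith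
    have h2 : C1 ≤ ε / 2 * (L / (2 * Real.pi)) := by
      rw [mul_div_assoc', le_div_iff₀ (by positivity)]
      have h3 : 2 * Real.pi * C1 * (2 / ε) = (C1 * (2 * Real.pi)) * 2 / ε := by ring
      rw [h3, div_le_iff₀ hε] at h1
      linarith
    calc C1 * T ≤ (ε / 2 * (L / (2 * Real.pi))) * T := mul_le_mul_of_nonneg_right h2 hT0.le
      _ = _ := by ring
  have hm0 : (0:ℝ) ≤ m := Nat.cast_nonneg m
  set q := ((2 - cMTinv) - m * (cMTinv - 1) / 2) * Gm01 a b with hq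
  have hq1 : q ≤ 1 := by
    have h1 : (2 - cMTinv) - m * (cMTinv - 1) / 2 ≤ 1 := by
      have : 0 ≤ m * (cMTinv - 1) / 2 := by
        have : 0 ≤ cMTinv - 1 := by linarith
        positivity
      linarith
    calc q ≤ 1 * Gm01 a b := mul_le_mul_of_nonneg_right h1 hg0
      _ ≤ 1 := by linarith
  by_cases hneg : q - ε < 0
  · exact (mul_nonpos_of_nonpos_of_nonneg hneg.le (Nat.cast_nonneg _)).trans (Nat.cast_nonneg _)
  push Not at hneg
  have hC0 : 0 ≤ C1 * T := by positivity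
  calc (q - ε) * (NN riemannZeta T (2 * T) : ℝ) ≤ (q - ε) * (T * (L / (2 * Real.pi)) + C1 * T) :=
        mul_le_mul_of_nonneg_left hnn'' hneg
    _ ≤ (q - ε) * (T * (L / (2 * Real.pi))) + 1 * (C1 * T) := by
        rw [mul_add]
        have : q - ε ≤ 1 := by linarith
        gcongr
    _ ≤ (q - ε) * (T * (L / (2 * Real.pi))) + ε / 2 * (T * (L / (2 * Real.pi))) := by linarith
    _ = (q - ε / 2) * (T * (L / (2 * Real.pi))) := by ring
    _ ≤ _ := hc

end

end Pool.Agent.J4.H62.RL
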